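import Pool.Agent.Lib.MP_f3f345_co.Main

/-! # Connected (n_3) configurations with at most fifteen points

Every connected combinatorial (n_3) configuration with n at most 15 is geometrically realizable in the
Euclidean plane with rational points, except the Fano configuration, the Moebius-Kantor configuration and one
(10_3) configuration.

The proof is an orderly enumeration of all maximal incidence matrices, run as a certificate check inside the
kernel: `Chk.lean` is the checker, `Snd.lean` its soundness proof, the modules `D7_00` to `D15_24` hold the
certificates (non-maximality witnesses and integer coordinates). -/
namespace Pool.Agent.Results.MP_f3f345_co.ConnectedN3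

open Pool.Agent.N3

theorem result (n : ℕ) (hn : n ≤ 15) (C : Cfg n) (hC : C.levi.Connected) :
    C.RatRealizable ∨ C.Iso fano ∨ C.Iso mobiusKantor ∨ C.Iso ten :=
  main n hn C hC

end Pool.Agent.Results.MP_f3f345_co.ConnectedN3
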